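import Pool.Agent.Helper19.CL.Count

set_option autoImplicit false

namespace Pool.Agent.Results.MP_c62cc9_an.AlmostAllSymmetric

/-- The Clark–Lewis map `T(x,y) = (⌊(x+y)/2⌋, y - x)` on `ℤ²`. -/
def T (p : ℤ × ℤ) : ℤ × ℤ := (⌊((p.1 + p.2 : ℤ) : ℚ) / 2⌋, p.2 - p.1)

/-- The forward orbit of `p` under `T` is bounded. -/
def BoundedOrbit (p : ℤ × ℤ) : Prop :=
  ∃ C : ℤ, ∀ n : ℕ, |(T^[n] p).1| ≤ C ∧ |(T^[n] p).2| ≤ C

open Classical in
/-- The number of integers `y` with `|y| ≤ R` for which the forward orbit of `(0,y)` is bounded. -/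
noncomputable def boundedCount (R : ℕ) : ℕ :=
  ((Finset.Icc (-(R:ℤ)) R).filter (fun y => BoundedOrbit (0, y))).card

open Classical in
/-- The number of integers `y` with `|y| ≤ R` for which the forward orbit of `(0,y)` is unbounded. -/
noncomputable def unboundedCount (R : ℕ) : ℕ :=
  ((Finset.Icc (-(R:ℤ)) R).filter (fun y => ¬ BoundedOrbit (0, y))).card

lemma T_eq : T = CL19.T := by
  funext p
  unfold T CL19.T
  have := Rat.floor_intCast_div_natCast (p.1 + p.2) 2
  rw [show ((p.1 + p.2 : ℤ) : ℚ) / 2 = ((p.1 + p.2 : ℤ) : ℚ) / ((2:ℕ) : ℚ) by norm_num, this]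
  rfl

lemma bounded_of_periodic {p : ℤ × ℤ} {k : ℕ} (hk : 0 < k) (h : CL19.T^[k] p = p) : BoundedOrbit p := by
  refine ⟨∑ i ∈ Finset.range k, (|(CL19.T^[i] p).1| + |(CL19.T^[i] p).2|), fun n => ?_⟩
  rw [T_eq]
  have h1 : CL19.T^[n] p = CL19.T^[n % k] p := by
    conv_lhs => rw [← Nat.mod_add_div n k]
    rw [Function.iterate_add_apply, Function.iterate_mul]
    congr 1
    exact Function.iterate_fixed h _
  rw [h1]
  have hmem : n % k ∈ Finset.range k := Finset.mem_range.mpr (Nat.mod_lt _ hk)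
  have h2 := Finset.single_le_sum (f := fun i => |(CL19.T^[i] p).1| + |(CL19.T^[i] p).2|)
    (fun i _ => by positivity) hmem
  have h3 := abs_nonneg (CL19.T^[n % k] p).1
  have h4 := abs_nonneg (CL19.T^[n % k] p).2
  constructor <;> linarith

lemma np_of_unbounded {p : ℤ × ℤ} (h : ¬ BoundedOrbit p) : ∀ n, 0 < n → CL19.T^[n] p ≠ p :=
  fun _ hn heq => h (bounded_of_periodic hn heq)

lemma Phi_zero_le {y : ℤ} {R : ℕ} (hR : 2 ≤ R) (hy : |y| ≤ R) : ‖CL19.Phi (0, y)‖ ≤ R := by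
  have hRr : (2:ℝ) ≤ R := by exact_mod_cast hR
  have h1 : |(y:ℝ)| ≤ R := by exact_mod_cast hy
  have h7 := CL19.s7
  obtain ⟨a1, a2⟩ := abs_le.mp h1
  have hsq : ‖CL19.Phi (0, y)‖ ^ 2 ≤ (R:ℝ) ^ 2 := by
    rw [← Complex.normSq_eq_norm_sq, Complex.normSq_apply]
    simp only [CL19.Phi]
    push_cast
    have : (0 - ((y:ℝ) - 1/2) / 4) * (0 - ((y:ℝ) - 1/2) / 4) +
        Real.sqrt 7 / 4 * ((y:ℝ) - 1/2) * (Real.sqrt 7 / 4 * ((y:ℝ) - 1/2)) = ((y:ℝ) - 1/2) ^ 2 / 2 := by
      linear_combination (((y:ℝ) - 1/2) ^ 2 / 16) * h7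
    rw [this]
    nlinarith
  exact le_trans (le_abs_self _) (abs_le_of_sq_le_sq hsq (by positivity))

lemma Phi_gen_le {z : ℤ × ℤ} {R : ℕ} (hR : 2 ≤ R) (hx : |z.1| ≤ R) (hy : |z.2| ≤ R) :
    ‖CL19.Phi z‖ ≤ ((2 * R : ℕ) : ℝ) := by
  have h0 := Phi_zero_le hR hy
  have h1 : CL19.Phi z = ((z.1 : ℝ) : ℂ) + CL19.Phi (0, z.2) := by
    apply Complex.ext
    · simp [CL19.Phi]; ring
    · simp [CL19.Phi]
  rw [h1]
  refine le_trans (norm_add_le _ _) ?_
  rw [Complex.norm_real, Real.norm_eq_abs]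
  have h2 : |(z.1:ℝ)| ≤ R := by exact_mod_cast hx
  push_cast
  linarith

/-- **Theorem.** (i) For all `N ≥ 1` and `R ≥ 2^N`, at most `27 R / √N` of the symmetric points
`(0,y)`, `|y| ≤ R`, have an unbounded orbit. (ii) Any set of points of the box `|x|,|y| ≤ R` whose
orbits are unbounded and pairwise disjoint has at most `54 R / √N` elements. (iii) The proportion of
the `y` with `|y| ≤ R` for which `(0,y)` has a bounded (so periodic) orbit tends to `1`. -/
theorem result :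
    (∀ N R : ℕ, 1 ≤ N → 2 ^ N ≤ R → (unboundedCount R : ℝ) ≤ 27 * R / Real.sqrt N) ∧
    (∀ N R : ℕ, 1 ≤ N → 2 ^ N ≤ R → ∀ Z : Finset (ℤ × ℤ),
      (∀ z ∈ Z, |z.1| ≤ R ∧ |z.2| ≤ R ∧ ¬ BoundedOrbit z) →
      (∀ z ∈ Z, ∀ z' ∈ Z, z ≠ z' → ∀ i j : ℕ, T^[i] z ≠ T^[j] z') →
      (Z.card : ℝ) ≤ 54 * R / Real.sqrt N) ∧
    Filter.Tendsto (fun R : ℕ => (boundedCount R : ℝ) / (2 * R + 1)) Filter.atTop (nhds 1) := by
  classical
  have part1 : ∀ N R : ℕ, 1 ≤ N → 2 ^ N ≤ R → (unboundedCount R : ℝ) ≤ 27 * R / Real.sqrt N := by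
    intro N R hN hR
    have hR2 : 2 ≤ R := le_trans (by calc 2 = 2 ^ 1 := by norm_num
                                  _ ≤ 2 ^ N := Nat.pow_le_pow_right (by norm_num) hN) hR
    set Y := (Finset.Icc (-(R:ℤ)) R).filter (fun y => ¬ BoundedOrbit (0, y)) with hY
    have hcard : unboundedCount R = (Y.image (fun y : ℤ => ((0:ℤ), y))).card := by
      rw [Finset.card_image_of_injective _ (fun a b h => by simpa using h)]
      unfold unboundedCount
      congr!
    rw [hcard]
    apply CL19.count' N R hN hR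
    · intro z hz
      obtain ⟨y, hy, rfl⟩ := Finset.mem_image.mp hz
      obtain ⟨hy1, _⟩ := Finset.mem_filter.mp hy
      rw [Finset.mem_Icc] at hy1
      exact Phi_zero_le hR2 (abs_le.mpr hy1)
    · intro z hz
      obtain ⟨y, hy, rfl⟩ := Finset.mem_image.mp hz
      exact np_of_unbounded (Finset.mem_filter.mp hy).2
    · intro z hz z' hz' i j hij
      obtain ⟨y, hy, rfl⟩ := Finset.mem_image.mp hz
      obtain ⟨y', hy', rfl⟩ := Finset.mem_image.mp hz'
      have hn := np_of_unbounded (Finset.mem_filter.mp hy).2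
      have hn' := np_of_unbounded (Finset.mem_filter.mp hy').2
      rcases le_total i j with h | h
      · have e : j = i + (j - i) := by omega
        rw [e, Function.iterate_add_apply] at hij
        have h1 : ((0:ℤ), y) = CL19.T^[j - i] (0, y') := CL19.T_inj.iterate i hij
        rcases Nat.eq_zero_or_pos (j - i) with h0 | h0
        · rw [h0] at h1; exact h1
        · exact absurd (CL19.sym_periodic _ _ _ h1.symm) (hn' _ (by omega))
      · have e : i = j + (i - j) := by omega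
        rw [e, Function.iterate_add_apply] at hij
        have h1 : CL19.T^[i - j] ((0:ℤ), y) = (0, y') := CL19.T_inj.iterate j hij
        rcases Nat.eq_zero_or_pos (i - j) with h0 | h0
        · rw [h0] at h1; exact h1
        · exact absurd (CL19.sym_periodic _ _ _ h1) (hn _ (by omega))
  refine ⟨part1, ?_, ?_⟩
  · intro N R hN hR Z hZ hd
    have hR2 : 2 ≤ R := le_trans (by calc 2 = 2 ^ 1 := by norm_num
                                  _ ≤ 2 ^ N := Nat.pow_le_pow_right (by norm_num) hN) hR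
    have h := CL19.count' N (2 * R) hN (by omega) Z (fun z hz => Phi_gen_le hR2 (hZ z hz).1 (hZ z hz).2.1)
      (fun z hz => np_of_unbounded (hZ z hz).2.2) (fun z hz z' hz' i j hij => by
        by_contra hne
        exact hd z hz z' hz' hne i j (by rw [T_eq]; exact hij))
    push_cast at h
    calc (Z.card : ℝ) ≤ 27 * (2 * R) / Real.sqrt N := h
      _ = 54 * R / Real.sqrt N := by ring
  · have hsum : ∀ R : ℕ, (boundedCount R : ℝ) + unboundedCount R = 2 * R + 1 := by
      intro R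
      have h1 := Finset.card_filter_add_card_filter_not (s := Finset.Icc (-(R:ℤ)) R) (fun y => BoundedOrbit (0, y))
      rw [Int.card_Icc] at h1
      have h2 : ((R:ℤ) + 1 - -(R:ℤ)).toNat = 2 * R + 1 := by omega
      rw [h2] at h1
      unfold boundedCount unboundedCount
      have h3 : ((((Finset.Icc (-(R:ℤ)) R).filter (fun y => BoundedOrbit (0, y))).card +
        ((Finset.Icc (-(R:ℤ)) R).filter (fun y => ¬ BoundedOrbit (0, y))).card : ℕ) : ℝ) = ((2 * R + 1 : ℕ) : ℝ) := by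
        congr 1
      push_cast at h3
      exact h3
    rw [Metric.tendsto_atTop]
    intro ε hε
    obtain ⟨N, hN⟩ := exists_nat_gt (((27:ℝ) / ε) ^ 2)
    refine ⟨2 ^ (N + 1), fun R hR => ?_⟩
    have hp := part1 (N + 1) R (by omega) hR
    have hb := hsum R
    have hpos : (0:ℝ) < 2 * R + 1 := by positivity
    have hu : (0:ℝ) ≤ unboundedCount R := Nat.cast_nonneg _
    rw [Real.dist_eq]
    have e1 : (boundedCount R : ℝ) / (2 * R + 1) - 1 = - (unboundedCount R / (2 * R + 1)) := by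
      field_simp; linarith
    rw [e1, abs_neg, abs_of_nonneg (by positivity), div_lt_iff₀ hpos]
    have hs0 : 0 < Real.sqrt ((N + 1 : ℕ) : ℝ) := Real.sqrt_pos.mpr (by positivity)
    have hs : 27 / ε < Real.sqrt ((N + 1 : ℕ) : ℝ) := by
      apply Real.lt_sqrt_of_sq_lt
      push_cast; linarith
    have h27 : 27 / Real.sqrt ((N + 1 : ℕ) : ℝ) < ε := by
      rw [div_lt_iff₀ hs0]
      rw [div_lt_iff₀ hε] at hs
      linarith
    have hR0 : (0:ℝ) ≤ R := Nat.cast_nonneg R
    calc (unboundedCount R : ℝ) ≤ 27 * R / Real.sqrt ((N + 1 : ℕ) : ℝ) := hp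
      _ = (27 / Real.sqrt ((N + 1 : ℕ) : ℝ)) * R := by ring
      _ ≤ ε * R := mul_le_mul_of_nonneg_right h27.le hR0
      _ < ε * (2 * R + 1) := by
        apply mul_lt_mul_of_pos_left _ hε
        linarith

end Pool.Agent.Results.MP_c62cc9_an.AlmostAllSymmetric
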